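import Pool.Agent.V8H75.HL.Sim

set_option autoImplicit false

/-!
# MP_5046ca_nt: the inequality of Q1 in almost all residue classes

A window `(x, x + y]` is put into one of the residue classes modulo the product of the primes up to
`y`: the class is given by the residues `a p` of `x` modulo the primes `p ≤ y`. For fixed
`c < 1 - e ^ (-γ) = 0.438...` and large `y`, in all residue classes up to a proportion
`O(log y / y)`, every window with `x ≥ y` has at most `π(y) - c y / log y` primes. So the inequality
`π(x + y) - π(x) ≤ π(y) - M` of Q1 holds, for all `x ≥ y`, in almost all residue classes. Q1 is the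
statement that for large `y` it holds in all of them, for all large `x`.

This holds for all large lengths `y` simultaneously: prescribe residues `a p` modulo all primes up to
`Z`. For all `a` up to a proportion `O(log Y / Y)`, not depending on `Z`, the inequality holds for
every window `(x, x + y]` with `Y ≤ y ≤ Z`, `x ≥ y` and `x ≡ a p` modulo `p` for the primes `p ≤ y`.

The sieve alone cannot treat all the classes: there are classes in which more than
`π(y) + α y log log log y / (log y) ^ 2` integers of the window are not divisible by a prime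
`p ≤ y`, for every `α < 1 / 2`.

The proof computes the variance of the number of these integers over all residue classes.
-/

namespace Pool.Agent.Results.MP_5046ca_nt.AlmostAllClasses

open Finset Filter Pool.Agent.V8H75.HL

/-- The number of primes in `(x, x + y]`. -/
def primesIn (x y : ℕ) : ℕ := ((Ioc x (x + y)).filter Nat.Prime).card

/-- The integer `x` is in the residue class `a`: `x ≡ a p` modulo `p` for the primes `p ≤ y`. -/
def InClass {y : ℕ} (a : primesTo y → ℕ) (x : ℕ) : Prop := ∀ p : primesTo y, x ≡ a p [MOD p]

/-- The residue class contains a window with more than `π(y) - G` primes. -/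
def Exceptional (y : ℕ) (G : ℝ) (a : primesTo y → ℕ) : Prop :=
  ∃ x : ℕ, y ≤ x ∧ InClass a x ∧ (Nat.primeCounting y : ℝ) - G < primesIn x y

/-- For some `y` between `Y` and `Z` some window `(x, x + y]`, such that `x ≡ a p` modulo `p` for the
primes `p ≤ y`, has more than `π(y) - c y / log y` primes. -/
def ExceptionalBetween (Y Z : ℕ) (c : ℝ) (a : primesTo Z → ℕ) : Prop :=
  ∃ y x : ℕ, Y ≤ y ∧ y ≤ Z ∧ y ≤ x ∧ (∀ p : primesTo Z, (p : ℕ) ≤ y → x ≡ a p [MOD p]) ∧
    (Nat.primeCounting y : ℝ) - c * (y / Real.log y) < primesIn x y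

theorem primesIn_eq (x y : ℕ) :
    (primesIn x y : ℝ) = (Nat.primeCounting (x + y) : ℝ) - Nat.primeCounting x := by
  have h1 : (x + y + 1).primesBelow = (x + 1).primesBelow ∪ (Ioc x (x + y)).filter Nat.Prime := by
    ext q
    simp only [Nat.mem_primesBelow, mem_union, mem_filter, mem_Ioc]
    constructor
    · rintro ⟨h1, h2⟩
      by_cases h : q < x + 1
      · exact Or.inl ⟨h, h2⟩
      · exact Or.inr ⟨by omega, h2⟩
    · rintro (⟨h1, h2⟩ | ⟨h1, h2⟩)
      · exact ⟨by omega, h2⟩
      · exact ⟨by omega, h2⟩
  have h2 : Disjoint (x + 1).primesBelow ((Ioc x (x + y)).filter Nat.Prime) := by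
    rw [disjoint_left]
    intro q h3 h4
    have := (Nat.mem_primesBelow.1 h3).1
    have := (mem_Ioc.1 (mem_filter.1 h4).1).1
    omega
  have h3 := congrArg card h1
  rw [card_union_of_disjoint h2] at h3
  have e1 : (x + y + 1).primesBelow.card = Nat.primeCounting (x + y) :=
    Nat.primesBelow_card_eq_primeCounting' _
  have e2 : (x + 1).primesBelow.card = Nat.primeCounting x :=
    Nat.primesBelow_card_eq_primeCounting' _
  rw [e1, e2] at h3
  have h4 : (Nat.primeCounting (x + y) : ℝ) = Nat.primeCounting x + primesIn x y := by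
    exact_mod_cast h3
  linarith

open Classical in
theorem result :
    -- a window of the class `a` has at most as many primes as the sieve leaves integers
    (∀ (y : ℕ) (a : primesTo y → ℕ) (x : ℕ), y ≤ x → InClass a x →
      primesIn x y ≤ (surv (primesTo y) y a).card) ∧
    -- almost all classes have few primes in all windows, and few survivors of the sieve
    (∀ c : ℝ, c < 1 - Real.exp (-Real.eulerMascheroniConstant) → ∃ C : ℝ, ∀ᶠ y : ℕ in atTop,
      (((box (primesTo y)).filter (Exceptional y (c * (y / Real.log y)))).card : ℝ) ≤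
        C * (Real.log y / y) * ∏ p ∈ primesTo y, (p : ℝ) ∧
      (((box (primesTo y)).filter fun a => (Nat.primeCounting y : ℝ) - c * (y / Real.log y) <
        ((surv (primesTo y) y a).card : ℝ)).card : ℝ) ≤
        C * (Real.log y / y) * ∏ p ∈ primesTo y, (p : ℝ)) ∧
    -- all lengths between `Y` and `Z` simultaneously, uniformly in `Z`
    (∀ c : ℝ, c < 1 - Real.exp (-Real.eulerMascheroniConstant) → ∃ (C : ℝ) (Y₀ : ℕ),
      ∀ Y Z : ℕ, Y₀ ≤ Y →
        (((box (primesTo Z)).filter (ExceptionalBetween Y Z c)).card : ℝ) ≤
          C * (Real.log Y / Y) * ∏ p ∈ primesTo Z, (p : ℝ)) ∧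
    -- there are classes with many survivors of the sieve
    ∀ α : ℝ, α < 1 / 2 → ∀ᶠ y : ℕ in atTop, ∃ a ∈ box (primesTo y),
      (Nat.primeCounting y : ℝ) +
        α * (y * Real.log (Real.log (Real.log y)) / (Real.log y) ^ 2) ≤
          (surv (primesTo y) y a).card := by
  have h0 : ∀ (y : ℕ) (a : primesTo y → ℕ) (x : ℕ), y ≤ x → InClass a x →
      primesIn x y ≤ (surv (primesTo y) y a).card := by
    intro y a x hx ha
    have h := window_le y x hx a ha
    rw [← primesIn_eq] at h
    exact_mod_cast h
  refine ⟨h0, fun c hc => ?_, fun c hc => ?_, fun α hα => exists_class hα⟩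
  swap
  · obtain ⟨C, Y₀, hC⟩ := simultaneous hc
    refine ⟨C, Y₀, fun Y Z hY => le_trans (le_of_eq ?_) (hC Y Z hY)⟩
    have h1 : ExceptionalBetween Y Z c = Bad Y Z c := by
      funext a
      simp only [ExceptionalBetween, Bad, primesIn_eq]
    rw [h1]
  obtain ⟨C, hC⟩ := almost_all hc
  refine ⟨C, ?_⟩
  filter_upwards [hC] with y hy
  refine ⟨le_trans ?_ hy, hy⟩
  have h1 : (box (primesTo y)).filter (Exceptional y (c * (y / Real.log y))) ⊆
      (box (primesTo y)).filter fun a => (Nat.primeCounting y : ℝ) - c * (y / Real.log y) <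
        ((surv (primesTo y) y a).card : ℝ) := by
    intro a ha
    rw [mem_filter] at ha ⊢
    obtain ⟨ha1, x, hx, hax, h⟩ := ha
    refine ⟨ha1, h.trans_le ?_⟩
    exact_mod_cast h0 y a x hx hax
  exact_mod_cast card_le_card h1

end Pool.Agent.Results.MP_5046ca_nt.AlmostAllClasses
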