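import Pool.Agent.R498.MP.Tup
import Pool.Agent.H381R2.HR.Main
import Pool.Agent.V8H84.HL.Fin

set_option autoImplicit false

/-!
# The Hardy-Littlewood function of the almost primes

`ρ(y)` is the case `r = 1`, `δ = 1` of the function `ρ_(r,δ)(y)` of the almost primes. For large `r` and
small `δ` this function is exactly `ρ*(y)`, the largest size of an admissible set in a window of `y`
integers; so `π(y) - ρ_(r,δ)(y)` tends to minus infinity. The extremal windows can be found right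
behind `m` primes in a bounded interval, and this along arithmetic progressions.
-/

namespace Pool.Agent.Results.MP_5046ca_nt.AlmostPrimeWindows

open Finset Filter Pool.Agent.V8H84.HL

/-- Q1: `π(y) - ρ(y) → ∞` -/
def Q1 : Prop := Tendsto (fun y : ℕ => (Nat.primeCounting y : ℤ) - rho y) atTop atTop

/-- `α y log log log y / (log y) ^ 2` -/
noncomputable def extra (α : ℝ) (y : ℕ) : ℝ :=
  α * (y * Real.log (Real.log (Real.log y)) / (Real.log y) ^ 2)

theorem runs : Runs := fun k t ht m => by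
  obtain ⟨K, r, δ, hδ, h⟩ := Pool.Agent.R498.MP.tup_runs k t ht m
  refine ⟨K, r, δ, hδ, fun S hS l => ?_⟩
  obtain ⟨B, hB⟩ := h S hS l
  refine ⟨B, ?_⟩
  filter_upwards [hB] with N hN
  obtain ⟨H, hH, hHm, n, d, h1, h2, h3⟩ := hN
  exact ⟨H, hH, hHm, n, d, h1, h2, fun j hj => by
    obtain ⟨g1, g2, g3, -⟩ := h3 j hj
    exact ⟨g1, g2, g3⟩⟩

/-- (1) `ρ` is the case `r = 1`, `δ = 1`. (2) `ρ_(r,δ)(y) ≤ ρ*(y)`, with equality for all large `r` and
small `δ`. (3) `ρ*(y) ≥ π(y) + α y log log log y / (log y) ^ 2`. (4) The analogue of Q1 for almost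
primes fails in the strongest sense. (5) If Q1 holds, primes and almost primes differ by a lot.
(6) Extremal windows of almost primes behind clusters of primes, in progressions. -/
theorem result :
    (∀ y : ℕ, rho y = rhoAlmost 1 1 y) ∧
    (∀ y : ℕ, (∀ (r : ℕ) (δ : ℝ), 0 < δ → rhoAlmost r δ y ≤ rhoStar y) ∧
      ∃ (r₀ : ℕ) (δ₀ : ℝ), 0 < δ₀ ∧ ∀ r : ℕ, r₀ ≤ r → ∀ δ : ℝ, 0 < δ → δ ≤ δ₀ →
        rhoAlmost r δ y = rhoStar y) ∧
    (∀ α : ℝ, α < 1 / 2 → ∀ᶠ y : ℕ in atTop, (Nat.primeCounting y : ℝ) + extra α y ≤ rhoStar y) ∧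
    (∃ (r : ℕ → ℕ) (δ : ℕ → ℝ), (∀ y, 0 < δ y) ∧
      Tendsto (fun y : ℕ => (Nat.primeCounting y : ℤ) - rhoAlmost (r y) (δ y) y) atTop atBot) ∧
    (Q1 → ∀ α : ℝ, α < 1 / 2 → ∀ M : ℝ, ∀ᶠ y : ℕ in atTop,
      (rho y : ℝ) + M + extra α y ≤ rhoStar y) ∧
    ∀ y m : ℕ, ∃ (K r : ℕ) (δ : ℝ), 0 < δ ∧ ∀ l : ℕ, ∃ B : ℕ, ∀ᶠ N : ℕ in atTop,
      ∃ n d : ℕ, 1 ≤ d ∧ (d : ℝ) ≤ Real.log N ^ B ∧
        ∀ j < l, N < n + j * d ∧ n + j * d + K ≤ 2 * N ∧
        m ≤ ((Icc (n + j * d) (n + j * d + K)).filter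
          (fun p => p.Prime ∧ number r δ (p - 1) y = rhoStar y)).card := by
  have hD : ∀ α : ℝ, α < 1 / 2 → Dense α := fun α hα => Pool.Agent.H381R2.HR.final hα
  exact ⟨rho_eq, fun y => ⟨fun r δ hδ => rhoAlmost_le r δ hδ y, eq_all runs y⟩,
    fun α hα => rhoStar_ge (hD α hα), analogue runs (hD _ (by norm_num)),
    fun hQ α hα M => separation (hD α hα) hQ M, windows runs⟩

end Pool.Agent.Results.MP_5046ca_nt.AlmostPrimeWindows
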