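import Pool.Agent.V8H75.HL.Near

set_option autoImplicit false

/-!
# MP_5046ca_nt: the inequality of Q1 for windows near multiples of primorials

There is a constant `C` such that, for every `M` and all large `y`, every window `(x, x + y]` with
`x ≥ y` for which `[x, x + y]` contains an integer `m` divisible by all primes up to
`C y / log y` has at most `π(y) - M` primes. All these primes, but at most two, are at prime
distances from `m`, so that the number of primes is bounded by
`π(a) + π(b) - 2 π(C y / log y) + 2` with `a + b = y`, up to the cases in which `a` or `b` is small.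

The order of magnitude `y / log y` is that of the primes in the construction of Hensley and
Richards: if `m` is only divisible by the primes up to a small multiple of `y / log y`, the integers
`m ± q` with `q` prime are more than `π(y) + c y / (log y) ^ 2`.
-/

namespace Pool.Agent.Results.MP_5046ca_nt.NearPrimorials

open Finset Filter

/-- The number of primes in `(x, x + y]`. -/
def primesIn (x y : ℕ) : ℕ := ((Ioc x (x + y)).filter Nat.Prime).card

theorem result : ∃ C : ℝ, 0 < C ∧ ∀ M : ℝ, ∀ᶠ y : ℕ in atTop, ∀ x m : ℕ, y ≤ x → x ≤ m →
    m ≤ x + y → (∀ p : ℕ, p.Prime → (p : ℝ) ≤ C * (y / Real.log y) → p ∣ m) →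
    (primesIn x y : ℝ) ≤ Nat.primeCounting y - M :=
  Pool.Agent.V8H75.HL.near

end Pool.Agent.Results.MP_5046ca_nt.NearPrimorials
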