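import Mathlib
import Pool.Agent.V8H16.RS.Prime

/-!
# No translate of the primes is contained in the set of the jumps of the Hardy-Littlewood function

`ρ(y)` is the largest number of primes in infinitely many windows `(x, x + y]`. A window
`(u, u + b]` is extremal if it contains `ρ(b)` primes. For every `b` there are infinitely many
extremal windows `(u, u + b]`.

The starting file `NoFiniteLimit` proves that for arbitrarily large `b` the gap `π(y) - ρ(y)`
increases across all late extremal windows `(u, u + b]`, so that it has no finite limit. Here this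
is proved for all bounded translates of `ρ` simultaneously:

* for all `K` there are arbitrarily large `b` such that across all late extremal windows
  `(u, u + b]` all the `2 K + 1` functions `π(y) - ρ(y + j)`, `|j| ≤ K`, increase, and these windows
  contain, for each such `j`, a prime `q` such that `ρ` does not jump at `q + j`;
* for no integer `j` all large elements of the translate `ℙ + j` of the set of the primes are jumps
  of `ρ`;
* for no integer `k` the function `π(y + k) - ρ(y)` has a finite limit.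

The same holds, with the function `ρ_A` of `A`, for every set `A` of natural numbers such that each
prime number divides only finitely many elements of `A`, if infinitely often three elements of `A`
are at a bounded distance.

Proof. Otherwise, starting with any `a`, one constructs a long sequence `a = f 0 < f 1 < ...` such
that extremal windows of length `a` begin within distance `K` of all differences `f j - f i`. One of
the differences is divisible by `(a + K + 2)!`. So the window contains at most two primes. But `ρ(a)`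
is greater than two for some `a`, by the theorem of Maynard and Tao.
-/

set_option autoImplicit false

namespace Pool.Agent.Results.MP_5046ca_nt.TranslatedGaps

open Filter

/-- `ρ(y)`, the limsup of `π(x + y) - π(x)` for `x → ∞` -/
noncomputable def rho (y : ℕ) : ℕ :=
  limsup (fun x : ℕ => Nat.primeCounting (x + y) - Nat.primeCounting x) atTop

/-- The window `(u, u + b]` is extremal: it contains `ρ(b)` primes. -/
def Extremal (b u : ℕ) : Prop := Nat.primeCounting (u + b) = Nat.primeCounting u + rho b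

/-- `π(y) - ρ(y + j)` (with `ρ(n) = 0` for integers `n < 0`) -/
noncomputable def gap (j : ℤ) (y : ℕ) : ℤ := (Nat.primeCounting y : ℤ) - rho ((y : ℤ) + j).toNat

/-- The integer `n` is a jump of `ρ`: `ρ(n - 1) < ρ(n)` (with `ρ(n) = 0` for integers `n < 0`). -/
def Jump (n : ℤ) : Prop := rho (n - 1).toNat < rho n.toNat

/-- the number of the elements `≤ x` of the set of the `n` with `A n` -/
def count (A : ℕ → Prop) [DecidablePred A] (x : ℕ) : ℕ := Nat.count A (x + 1)

/-- `ρ_A(y)`, the limsup of the number of the elements of `A` in the windows `(x, x + y]` -/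
noncomputable def rhoOf (A : ℕ → Prop) [DecidablePred A] (y : ℕ) : ℕ :=
  limsup (fun x : ℕ => count A (x + y) - count A x) atTop

/-- **All bounded translates of the gap increase across extremal windows.** -/
theorem result :
    -- there are infinitely many extremal windows of every length
    (∀ b : ℕ, ∃ᶠ u : ℕ in atTop, Extremal b u) ∧
    -- for all `|j| ≤ K`, `π(y) - ρ(y + j)` increases across all late extremal windows `(u, u + b]`, and
    -- they contain a prime whose translate by `j` is not a jump of `ρ`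
    (∀ K B : ℕ, ∃ b, B ≤ b ∧ ∀ᶠ u : ℕ in atTop, Extremal b u → ∀ j : ℤ, |j| ≤ K →
      gap j u < gap j (u + b) ∧ ∃ q : ℕ, q.Prime ∧ u < q ∧ q ≤ u + b ∧ ¬ Jump (q + j)) ∧
    -- no translate of the primes is contained in the set of the jumps of `ρ`
    (∀ j : ℤ, {q : ℕ | q.Prime ∧ ¬ Jump (q + j)}.Infinite) ∧
    -- no finite limits
    (∀ k : ℤ, ¬ ∃ L : ℝ, Tendsto
      (fun y : ℕ => (Nat.primeCounting ((y : ℤ) + k).toNat : ℝ) - rho y) atTop (nhds L)) ∧
    -- the same for other sets
    (∀ (A : ℕ → Prop) [DecidablePred A], (∀ q : ℕ, q.Prime → {n | A n ∧ q ∣ n}.Finite) →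
      (∃ a, 3 ≤ rhoOf A a) →
      (∀ K B : ℕ, ∃ b, B ≤ b ∧ ∀ᶠ u : ℕ in atTop, count A (u + b) = count A u + rhoOf A b →
        ∀ j : ℤ, |j| ≤ K →
        (count A u : ℤ) - rhoOf A ((u : ℤ) + j).toNat <
          (count A (u + b) : ℤ) - rhoOf A (((u + b : ℕ) : ℤ) + j).toNat ∧
        ∃ q : ℕ, A q ∧ u < q ∧ q ≤ u + b ∧
          rhoOf A ((q : ℤ) + j).toNat = rhoOf A ((q : ℤ) + j - 1).toNat) ∧
      ∀ k : ℤ, ¬ ∃ L : ℝ, Tendsto
        (fun y : ℕ => (count A ((y : ℤ) + k).toNat : ℝ) - rhoOf A y) atTop (nhds L)) := by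
  have h3 : ∃ a, 3 ≤ V8H16.RS.rho Nat.Prime a := V8H16.RS.exists_rho 3
  have hs := V8H16.RS.sieved_prime
  have key : ∀ (A : ℕ → Prop) [DecidablePred A], V8H16.RS.Sieved A → (∃ a, 3 ≤ rhoOf A a) →
      ∀ K B : ℕ, ∃ b, B ≤ b ∧ ∀ᶠ u : ℕ in atTop, count A (u + b) = count A u + rhoOf A b →
        ∀ j : ℤ, |j| ≤ K →
        (count A u : ℤ) - rhoOf A ((u : ℤ) + j).toNat <
          (count A (u + b) : ℤ) - rhoOf A (((u + b : ℕ) : ℤ) + j).toNat ∧
        ∃ q : ℕ, A q ∧ u < q ∧ q ≤ u + b ∧
          rhoOf A ((q : ℤ) + j).toNat = rhoOf A ((q : ℤ) + j - 1).toNat := by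
    intro A _ hA h K B
    obtain ⟨b, hb, hev⟩ := V8H16.RS.jumps hA h K B
    refine ⟨b, hb, ?_⟩
    filter_upwards [hev, eventually_ge_atTop K] with u hu huK hE j hj
    obtain ⟨h1, q, hq1, hq2, hq3, hq4⟩ := hu hE j hj
    have h1' : rhoOf A (((u : ℤ) + j).toNat + b) + 1 ≤
        rhoOf A ((u : ℤ) + j).toNat + rhoOf A b := h1
    have hj' := abs_le.1 hj
    have e1 : (((u + b : ℕ) : ℤ) + j).toNat = ((u : ℤ) + j).toNat + b := by omega
    refine ⟨?_, q, hq3, hq1, hq2, hq4⟩
    rw [e1, hE]
    push_cast
    omega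
  have key2 : ∀ K B : ℕ, ∃ b, B ≤ b ∧ ∀ᶠ u : ℕ in atTop, Extremal b u → ∀ j : ℤ, |j| ≤ K →
      gap j u < gap j (u + b) ∧ ∃ q : ℕ, q.Prime ∧ u < q ∧ q ≤ u + b ∧ ¬ Jump (q + j) := by
    intro K B
    obtain ⟨b, hb, hev⟩ := key Nat.Prime hs h3 K B
    refine ⟨b, hb, ?_⟩
    filter_upwards [hev] with u hu hE j hj
    obtain ⟨h1, q, hq1, hq2, hq3, hq4⟩ := hu hE j hj
    exact ⟨h1, q, hq1, hq2, hq3, fun hJ => (ne_of_gt hJ) hq4⟩
  have key3 : ∀ b : ℕ, ∃ᶠ u : ℕ in atTop, Extremal b u :=
    fun b => V8H16.RS.rho_attained (p := Nat.Prime) b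
  refine ⟨key3, key2, fun j => ?_, fun k => V8H16.RS.no_limit hs h3 k, fun A _ hA h =>
      ⟨key A hA h, fun k => V8H16.RS.no_limit hA h k⟩⟩
  rw [Set.infinite_iff_exists_gt]
  intro N
  obtain ⟨b, -, hev⟩ := key2 j.natAbs 0
  obtain ⟨u, hE, hu, hN⟩ := ((key3 b).and_eventually (hev.and (eventually_ge_atTop N))).exists
  obtain ⟨-, q, h1, h2, -, h5⟩ := hu hE j (by rw [Int.abs_eq_natAbs])
  exact ⟨q, ⟨h1, h5⟩, by omega⟩

end Pool.Agent.Results.MP_5046ca_nt.TranslatedGaps
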